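import Mathlib

/-!
# Broadcasts

Definitions of the broadcast parameters, and broadcasts in graphs with a universal vertex.
-/

set_option autoImplicit false

namespace Pool.Agent.X65.BC

variable {V : Type} [Fintype V]

/-- eccentricity -/
noncomputable def ecc (G : SimpleGraph V) (v : V) : ℕ := Finset.univ.sup fun w => G.dist v w

/-- `f` is a broadcast: the value at each vertex is at most its eccentricity (and so at most the
diameter). -/
def IsBroadcast (G : SimpleGraph V) (f : V → ℕ) : Prop := ∀ v, f v ≤ ecc G v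

/-- the cost of a broadcast -/
def cost (f : V → ℕ) : ℕ := ∑ v, f v

/-- `x` hears `f` from `v` -/
def Hears (G : SimpleGraph V) (f : V → ℕ) (x v : V) : Prop := 0 < f v ∧ G.dist x v ≤ f v

/-- every vertex hears the broadcast from some vertex -/
def Dominating (G : SimpleGraph V) (f : V → ℕ) : Prop := ∀ x, ∃ v, Hears G f x v

/-- minimal dominating broadcasts -/
def MinimalDominating (G : SimpleGraph V) (f : V → ℕ) : Prop :=
  IsBroadcast G f ∧ Dominating G f ∧
    ∀ g : V → ℕ, IsBroadcast G g → (∀ v, g v ≤ f v) → g ≠ f → ¬ Dominating G g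

open Classical in
/-- the private boundary of `v`: the vertices `x` at distance at most `f v` from `v` which hear from
no vertex when the value of `v` is lowered by one -/
noncomputable def PB (G : SimpleGraph V) (f : V → ℕ) (v : V) : Set V :=
  {x | G.dist x v ≤ f v ∧ ∀ w, ¬ Hears G (Function.update f v (f v - 1)) x w}

/-- irredundant broadcasts -/
def Irredundant (G : SimpleGraph V) (f : V → ℕ) : Prop :=
  IsBroadcast G f ∧ ∀ v, 0 < f v → (PB G f v).Nonempty

/-- `Γ_b`: the maximum cost of a minimal dominating broadcast -/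
noncomputable def Gb (G : SimpleGraph V) : ℕ := sSup {c | ∃ f, MinimalDominating G f ∧ cost f = c}

/-- `IR_b`: the maximum cost of an irredundant broadcast -/
noncomputable def IRb (G : SimpleGraph V) : ℕ := sSup {c | ∃ f, Irredundant G f ∧ cost f = c}

theorem cost_le {G : SimpleGraph V} {f : V → ℕ} (h : IsBroadcast G f) : cost f ≤ ∑ v, ecc G v :=
  Finset.sum_le_sum fun v _ => h v

theorem le_Gb {G : SimpleGraph V} {f : V → ℕ} (h : MinimalDominating G f) : cost f ≤ Gb G :=
  le_csSup ⟨∑ v, ecc G v, by rintro c ⟨g, hg, rfl⟩; exact cost_le hg.1⟩ ⟨f, h, rfl⟩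

theorem exists_of_le_Gb {G : SimpleGraph V} {k : ℕ} (hk : 0 < k) (h : k ≤ Gb G) :
    ∃ f, MinimalDominating G f ∧ k ≤ cost f := by
  have hb : BddAbove {c | ∃ f, MinimalDominating G f ∧ cost f = c} :=
    ⟨∑ v, ecc G v, by rintro c ⟨g, hg, rfl⟩; exact cost_le hg.1⟩
  have hne : {c | ∃ f, MinimalDominating G f ∧ cost f = c}.Nonempty := by
    by_contra hne
    rw [Set.not_nonempty_iff_eq_empty] at hne
    unfold Gb at h
    rw [hne, csSup_empty] at h
    simp at h
    omega
  obtain ⟨f, hf, hc⟩ := Nat.sSup_mem hne hb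
  exact ⟨f, hf, by rw [hc]; exact h⟩

theorem exists_of_le_IRb {G : SimpleGraph V} {k : ℕ} (hk : 0 < k) (h : k ≤ IRb G) :
    ∃ f, Irredundant G f ∧ k ≤ cost f := by
  have hb : BddAbove {c | ∃ f, Irredundant G f ∧ cost f = c} :=
    ⟨∑ v, ecc G v, by rintro c ⟨g, hg, rfl⟩; exact cost_le hg.1⟩
  have hne : {c | ∃ f, Irredundant G f ∧ cost f = c}.Nonempty := by
    by_contra hne
    rw [Set.not_nonempty_iff_eq_empty] at hne
    unfold IRb at h
    rw [hne, csSup_empty] at h
    simp at h
    omega
  obtain ⟨f, hf, hc⟩ := Nat.sSup_mem hne hb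
  exact ⟨f, hf, by rw [hc]; exact h⟩

theorem le_IRb {G : SimpleGraph V} {f : V → ℕ} (h : Irredundant G f) : cost f ≤ IRb G :=
  le_csSup ⟨∑ v, ecc G v, by rintro c ⟨g, hg, rfl⟩; exact cost_le hg.1⟩ ⟨f, h, rfl⟩

/-- A minimal dominating broadcast is irredundant. -/
theorem MinimalDominating.irredundant {G : SimpleGraph V} {f : V → ℕ}
    (h : MinimalDominating G f) : Irredundant G f := by
  classical
  obtain ⟨h1, h2, h3⟩ := h
  refine ⟨h1, fun v hv => ?_⟩
  have h4 := h3 (Function.update f v (f v - 1)) (by
    intro w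
    by_cases hw : w = v
    · subst hw
      rw [Function.update_self]
      have := h1 w
      omega
    · rw [Function.update_of_ne hw]
      exact h1 w) (by
    intro w
    by_cases hw : w = v
    · subst hw
      rw [Function.update_self]
      omega
    · rw [Function.update_of_ne hw]) (by
    intro he
    have := congrFun he v
    rw [Function.update_self] at this
    omega)
  unfold Dominating at h4
  push Not at h4
  obtain ⟨x, hx⟩ := h4
  refine ⟨x, ?_, ?_⟩
  · obtain ⟨w, hw1, hw2⟩ := h2 x
    by_cases hwv : w = v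
    · subst hwv
      exact hw2
    · exfalso
      refine hx w ?_
      unfold Hears
      rw [Function.update_of_ne hwv]
      exact ⟨hw1, hw2⟩
  · intro w
    have := hx w
    convert this

theorem Gb_le_IRb (G : SimpleGraph V) : Gb G ≤ IRb G := by
  by_cases h : 0 < Gb G
  · obtain ⟨f, hf, hc⟩ := exists_of_le_Gb h le_rfl
    exact hc.trans (le_IRb hf.irredundant)
  · omega

/-! ### Graphs with a universal vertex -/

section

variable {G : SimpleGraph V} {u : V}

omit [Fintype V] in
theorem connected_of_univ (hu : ∀ v, v ≠ u → G.Adj u v) : G.Connected := by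
  have h : ∀ v, G.Reachable u v := by
    intro v
    by_cases hv : v = u
    · rw [hv]
    · exact (hu v hv).reachable
  exact { preconnected := fun a b => (h a).symm.trans (h b), nonempty := ⟨u⟩ }

theorem dist_le_two (hu : ∀ v, v ≠ u → G.Adj u v) (a b : V) : G.dist a b ≤ 2 := by
  have h : ∀ v, G.dist u v ≤ 1 := by
    intro v
    by_cases hv : v = u
    · rw [hv, SimpleGraph.dist_self]; omega
    · rw [SimpleGraph.dist_eq_one_iff_adj.2 (hu v hv)]
  have h1 := (connected_of_univ hu).dist_triangle (u := a) (v := u) (w := b)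
  have h2 := h a
  have h3 := h b
  rw [SimpleGraph.dist_comm] at h2
  omega

omit [Fintype V] in
theorem dist_le_one_iff (hG : G.Connected) {a b : V} : G.dist a b ≤ 1 ↔ a = b ∨ G.Adj a b := by
  constructor
  · intro h
    rcases Nat.lt_or_ge (G.dist a b) 1 with h1 | h1
    · exact Or.inl ((hG.dist_eq_zero_iff).1 (by omega))
    · exact Or.inr (SimpleGraph.dist_eq_one_iff_adj.1 (by omega))
  · rintro (h | h)
    · rw [h, SimpleGraph.dist_self]; omega
    · rw [SimpleGraph.dist_eq_one_iff_adj.2 h]

/-- Maximal independent sets are minimal dominating broadcasts. -/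
theorem minimalDominating_indicator (hG : G.Connected) [Nontrivial V] {D : Finset V}
    (hind : ∀ a ∈ D, ∀ b ∈ D, ¬ G.Adj a b) (hdom : ∀ a, a ∉ D → ∃ b ∈ D, G.Adj a b) :
    ∃ f, MinimalDominating G f ∧ cost f = D.card := by
  classical
  have hh : ∀ (g : V → ℕ), (∀ v, g v ≤ if v ∈ D then 1 else 0) → ∀ x v, Hears G g x v →
      v ∈ D ∧ g v = 1 ∧ (x = v ∨ G.Adj x v) := by
    intro g hg x v h
    obtain ⟨h1, h2⟩ := h
    have h3 := hg v
    by_cases hv : v ∈ D
    · rw [if_pos hv] at h3
      refine ⟨hv, by omega, (dist_le_one_iff hG).1 (by omega)⟩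
    · rw [if_neg hv] at h3
      omega
  have hb : ∀ v, 1 ≤ ecc G v := by
    intro v
    obtain ⟨w, hw⟩ := exists_ne v
    have h1 : 0 < G.dist v w := hG.pos_dist_of_ne hw.symm
    have h2 : G.dist v w ≤ ecc G v := Finset.le_sup (f := fun w => G.dist v w) (Finset.mem_univ w)
    omega
  refine ⟨fun v => if v ∈ D then 1 else 0, ⟨?_, ?_, ?_⟩, ?_⟩
  · intro v
    have := hb v
    simp only
    split_ifs <;> omega
  · intro x
    by_cases hx : x ∈ D
    · refine ⟨x, ?_⟩
      unfold Hears
      simp only [hx, if_true, SimpleGraph.dist_self]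
      omega
    · obtain ⟨b, hb1, hb2⟩ := hdom x hx
      refine ⟨b, ?_⟩
      unfold Hears
      simp only [hb1, if_true, SimpleGraph.dist_eq_one_iff_adj.2 hb2]
      omega
  · intro g _ hle hne hdomg
    have h1 : ∃ v, g v ≠ if v ∈ D then 1 else 0 := by
      by_contra hcon
      push Not at hcon
      exact hne (funext hcon)
    obtain ⟨v, hv⟩ := h1
    have h2 := hle v
    have hvD : v ∈ D := by
      by_contra hvD
      simp only [hvD, if_false] at h2 hv
      omega
    simp only [hvD, if_true] at h2 hv
    obtain ⟨w, hw⟩ := hdomg v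
    obtain ⟨h3, h4, h5⟩ := hh g hle v w hw
    rcases h5 with h5 | h5
    · rw [← h5] at h4
      omega
    · exact hind v hvD w h3 h5
  · unfold cost
    rw [Finset.sum_boole]
    simp

/-- **Irredundant broadcasts in graphs with a universal vertex and with twins.** -/
theorem irredundant_bound (hu : ∀ v, v ≠ u → G.Adj u v) {f : V → ℕ} (hf : Irredundant G f)
    (h2 : 2 < cost f) (cls : V → ℕ) (n : ℕ) (hcls : ∀ v, v ≠ u → cls v < n)
    (htw : ∀ v w, v ≠ u → w ≠ u → cls v = cls w → ∀ y, G.Adj y v → G.Adj y w) :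
    ∃ S : Finset V, u ∉ S ∧ (∀ a ∈ S, ∀ b ∈ S, ¬ G.Adj a b) ∧ cost f ≤ S.card + n := by
  classical
  have hG := connected_of_univ hu
  obtain ⟨hb, hirr⟩ := hf
  have hle2 : ∀ v, f v ≤ 2 := by
    intro v
    refine (hb v).trans (Finset.sup_le fun w _ => dist_le_two hu v w)
  -- no vertex is heard everywhere
  have hno : ∀ v, 0 < f v → (∀ x, G.dist x v ≤ f v) → False := by
    intro v hv hall
    have h0 : ∀ w, w ≠ v → f w = 0 := by
      intro w hw
      by_contra hpos
      obtain ⟨x, hx1, hx2⟩ := hirr w (by omega)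
      refine hx2 v ?_
      unfold Hears
      rw [Function.update_of_ne hw.symm]
      exact ⟨hv, hall x⟩
    have h1 : cost f = f v := by
      unfold cost
      exact Finset.sum_eq_single v (fun w _ hw => h0 w hw) (by simp)
    have := hle2 v
    omega
  have hfu : f u = 0 := by
    by_contra hpos
    refine hno u (by omega) fun x => ?_
    have h1 : G.dist x u ≤ 1 := by
      rw [dist_le_one_iff hG]
      by_cases hx : x = u
      · exact Or.inl hx
      · exact Or.inr (hu x hx).symm
    omega
  have hle1 : ∀ v, f v ≤ 1 := by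
    intro v
    by_contra h
    exact hno v (by omega) fun x => by
      have := dist_le_two hu x v
      omega
  have hcost : cost f = (Finset.univ.filter fun v => 0 < f v).card := by
    unfold cost
    rw [Finset.card_filter]
    refine Finset.sum_congr rfl fun v _ => ?_
    have := hle1 v
    split_ifs <;> omega
  have hpriv : ∀ x, 0 < f x → ∃ y, (y = x ∨ G.Adj y x) ∧
      ∀ z, 0 < f z → z ≠ x → ¬ (y = z ∨ G.Adj y z) := by
    intro x hx
    obtain ⟨y, hy1, hy2⟩ := hirr x hx
    have hx1 : f x = 1 := by have := hle1 x; omega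
    refine ⟨y, (dist_le_one_iff hG).1 (by omega), ?_⟩
    intro z hz hzx hyz
    refine hy2 z ?_
    unfold Hears
    rw [Function.update_of_ne hzx]
    have hz1 : f z = 1 := by have := hle1 z; omega
    refine ⟨hz, ?_⟩
    rw [hz1]
    exact (dist_le_one_iff hG).2 hyz
  refine ⟨Finset.univ.filter fun v => 0 < f v ∧ ∀ z, 0 < f z → ¬ G.Adj v z, ?_, ?_, ?_⟩
  · simp [hfu]
  · intro a ha b hb' hab
    rw [Finset.mem_filter] at ha hb'
    exact ha.2.2 b hb'.2.1 hab
  · rw [hcost]
    have hsub : (Finset.univ.filter fun v => 0 < f v) ⊆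
        (Finset.univ.filter fun v => 0 < f v ∧ ∀ z, 0 < f z → ¬ G.Adj v z) ∪
        (Finset.univ.filter fun v => 0 < f v ∧ ∃ z, 0 < f z ∧ G.Adj v z) := by
      intro v hv
      rw [Finset.mem_filter] at hv
      rw [Finset.mem_union, Finset.mem_filter, Finset.mem_filter]
      by_cases h : ∃ z, 0 < f z ∧ G.Adj v z
      · exact Or.inr ⟨Finset.mem_univ v, hv.2, h⟩
      · left
        push Not at h
        exact ⟨Finset.mem_univ v, hv.2, h⟩
    refine (Finset.card_le_card hsub).trans ((Finset.card_union_le _ _).trans ?_)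
    refine Nat.add_le_add_left ?_ _
    have himg : ((Finset.univ.filter fun v => 0 < f v ∧ ∃ z, 0 < f z ∧ G.Adj v z).image cls) ⊆
        Finset.range n := by
      intro c hc
      rw [Finset.mem_image] at hc
      obtain ⟨v, hv, rfl⟩ := hc
      rw [Finset.mem_filter] at hv
      rw [Finset.mem_range]
      refine hcls v ?_
      intro h
      rw [h, hfu] at hv
      omega
    have hinj : Set.InjOn cls
        ((Finset.univ.filter fun v => 0 < f v ∧ ∃ z, 0 < f z ∧ G.Adj v z) : Finset V) := by
      intro v hv w hw hvw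
      rw [Finset.mem_coe, Finset.mem_filter] at hv hw
      by_contra hne
      obtain ⟨y, hy1, hy2⟩ := hpriv v hv.2.1
      obtain ⟨z, hz1, hz2⟩ := hv.2.2
      have hyv : G.Adj y v := by
        rcases hy1 with h | h
        · exfalso
          refine hy2 z hz1 ?_ (Or.inr ?_)
          · intro h'
            rw [h'] at hz2
            exact G.loopless.irrefl _ hz2
          · rw [h]; exact hz2
        · exact h
      have hvu : v ≠ u := by
        intro h; rw [h, hfu] at hv; omega
      have hwu : w ≠ u := by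
        intro h; rw [h, hfu] at hw; omega
      exact hy2 w hw.2.1 (fun h => hne h.symm) (Or.inr (htw v w hvu hwu hvw y hyv))
    have h3 := Finset.card_le_card himg
    rw [Finset.card_image_of_injOn hinj, Finset.card_range] at h3
    exact h3

end

end Pool.Agent.X65.BC
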