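import Pool.Agent.X65.BC.Red
import Pool.Agent.X249.Kit
import Pool.Agent.H671R2.OOF.NP

/-!
# The reduction is computable in polynomial time
-/

set_option autoImplicit false

namespace Pool.Agent.X65.BC

open Pool.Agent.NPC Pool.Agent.NPC.R671 Pool.Agent.H671R2.Ord

section

variable {α : Type} [TEnc α]

theorem poly_cla {φ : α → Fm} {j : α → ℕ} (hφ : NPC.Poly φ) (hj : NPC.Poly j) :
    NPC.Poly (fun x => cla (φ x) (j x)) := by
  unfold cla
  fun_prop

attribute [local fun_prop] poly_cla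

theorem poly_lit {φ : α → Fm} {p : α → ℕ} (hφ : NPC.Poly φ) (hp : NPC.Poly p) :
    NPC.Poly (fun x => lit (φ x) (p x)) := by
  unfold lit
  fun_prop

attribute [local fun_prop] poly_lit

theorem poly_bad {φ : α → Fm} {p q : α → ℕ} (hφ : NPC.Poly φ) (hp : NPC.Poly p)
    (hq : NPC.Poly q) : NPC.Poly (fun x => bad (φ x) (p x) (q x)) := by
  unfold bad
  fun_prop

attribute [local fun_prop] poly_bad

theorem poly_ad {φ : α → Fm} {a b : α → ℕ × ℕ} (hφ : NPC.Poly φ) (ha : NPC.Poly a)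
    (hb : NPC.Poly b) : NPC.Poly (fun x => ad (φ x) (a x) (b x)) := by
  unfold ad
  fun_prop

end

theorem poly_vs : NPC.Poly vs := by
  have h1 : NPC.Poly (fun φ : Fm => List.range (3 * φ.length + 1)) :=
    (((UPoly.const 3).mul (UPoly.length NPC.Poly.id)).add (UPoly.const 1)).range
  have h2 : NPC.Poly (fun φ : Fm => List.range (3 * φ.length + 2)) :=
    (((UPoly.const 3).mul (UPoly.length NPC.Poly.id)).add (UPoly.const 2)).range
  unfold vs
  exact NPC.Poly.cons (by fun_prop) (poly_product h1 h2)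

theorem poly_mat : NPC.Poly (fun φ => adjMatrix (gr φ)) := by
  have h1 : NPC.Poly (fun φ : Fm => (vs φ).map (fun u => (vs φ).map (fun w => ad φ u w))) := by
    refine NPC.Poly.map (F := fun φ u => (vs φ).map (fun w => ad φ u w)) poly_vs ?_
    refine NPC.Poly.map (l := fun x : Fm × (ℕ × ℕ) => vs x.1)
      (F := fun x w => ad x.1 x.2 w) (poly_vs.comp (NPC.Poly.fst NPC.Poly.id)) ?_
    exact poly_ad (by fun_prop) (by fun_prop) (by fun_prop)
  exact h1.congr fun φ => (adjMatrix_listGraph _ _ _ _).symm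

theorem poly_K : NPC.Poly K := by
  unfold K
  fun_prop

theorem poly_out : NPC.Poly (fun φ => (adjMatrix (gr φ), K φ)) := NPC.Poly.pair poly_mat poly_K

/-- The decision problem for `Γ_b`: the input is the adjacency matrix of a connected graph with at
least two vertices, and a number. -/
def GbAtLeast (x : List (List Bool) × ℕ) : Prop :=
  ∃ (n : ℕ) (G : SimpleGraph (Fin n)), adjMatrix G = x.1 ∧ 2 ≤ n ∧ G.Connected ∧ x.2 ≤ Gb G

/-- The decision problem for `IR_b`. -/
def IRbAtLeast (x : List (List Bool) × ℕ) : Prop :=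
  ∃ (n : ℕ) (G : SimpleGraph (Fin n)), adjMatrix G = x.1 ∧ 2 ≤ n ∧ G.Connected ∧ x.2 ≤ IRb G

theorem inj_aux {P : ∀ {n : ℕ}, SimpleGraph (Fin n) → Prop} {n m : ℕ} {G : SimpleGraph (Fin n)}
    {H : SimpleGraph (Fin m)} (h : adjMatrix G = adjMatrix H) (hG : P G) : P H := by
  have hnm : n = m := by rw [← length_adjMatrix G, h, length_adjMatrix]
  subst hnm
  rw [← adjMatrix_inj h]
  exact hG

theorem hardI_Gb : HardI GbAtLeast := by
  refine (hardPr_SAT3.trans (Pr' := fun _ => True) poly_out (fun _ _ => trivial)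
    (Q := GbAtLeast) fun φ _ => ?_).toHardI
  constructor
  · intro h
    exact ⟨_, gr φ, rfl, card_vs φ, connected_of_univ (univ_adj φ), le_Gb_of_sat h⟩
  · rintro ⟨n, G, hG, _, _, hc⟩
    have h1 : K φ ≤ Gb (gr φ) := inj_aux (P := fun {n} G => K φ ≤ Gb G) hG hc
    exact sat_of_le_IRb (h1.trans (Gb_le_IRb _))

theorem hardI_IRb : HardI IRbAtLeast := by
  refine (hardPr_SAT3.trans (Pr' := fun _ => True) poly_out (fun _ _ => trivial)
    (Q := IRbAtLeast) fun φ _ => ?_).toHardI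
  constructor
  · intro h
    exact ⟨_, gr φ, rfl, card_vs φ, connected_of_univ (univ_adj φ),
      (le_Gb_of_sat h).trans (Gb_le_IRb _)⟩
  · rintro ⟨n, G, hG, _, _, hc⟩
    have h1 : K φ ≤ IRb (gr φ) := inj_aux (P := fun {n} G => K φ ≤ IRb G) hG hc
    exact sat_of_le_IRb h1

theorem hard_both (L : Set (List Bool)) (hL : InNP L) : ∃ f : List Bool → List Bool, PolyTime f ∧
    ∀ w, ∃ (n : ℕ) (G : SimpleGraph (Fin n)) (k : ℕ), f w = bits (adjMatrix G, k) ∧ 2 ≤ n ∧
      (∃ u, ∀ v, v ≠ u → G.Adj u v) ∧ (w ∈ L → k ≤ Gb G) ∧ (w ∉ L → IRb G < k) := by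
  obtain ⟨f, hf, _, hfL⟩ := hardPr_SAT3 L hL
  refine ⟨fun x => bits (adjMatrix (gr (f x)), K (f x)), PC.toPolyTime_bits poly_out f hf,
    fun w => ⟨_, gr (f w), K (f w), rfl, card_vs _, ⟨un (f w), univ_adj _⟩,
      fun hw => le_Gb_of_sat ((hfL w).1 hw), fun hw => ?_⟩⟩
  by_contra hcon
  exact hw ((hfL w).2 (sat_of_le_IRb (not_lt.1 hcon)))

end Pool.Agent.X65.BC
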