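import Pool.Agent.X65.BC.Defs
import Pool.Agent.H671R2.PolyAuto
import Pool.Agent.NPC.Sat

/-!
# The graph of a 3-CNF formula

The graph has a universal vertex; the other vertices are `3 N + 2` twins of each vertex of the
independent set graph of the formula (three vertices per clause, one more isolated vertex).
-/

set_option autoImplicit false

namespace Pool.Agent.X65.BC

open Pool.Agent.NPC Pool.Agent.NPC.R671

/-- formulas -/
abbrev Fm : Type := List (Lit ℕ × Lit ℕ × Lit ℕ)

/-- clause number `j` -/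
def cla (φ : Fm) (j : ℕ) : Lit ℕ × Lit ℕ × Lit ℕ := φ.getD j ((false, 0), (false, 0), (false, 0))

/-- literal number `p` -/
def lit (φ : Fm) (p : ℕ) : Lit ℕ :=
  if p % 3 = 0 then (cla φ (p / 3)).1 else if p % 3 = 1 then (cla φ (p / 3)).2.1
  else (cla φ (p / 3)).2.2

/-- conflicting literals, or literals of the same clause -/
def bad (φ : Fm) (p q : ℕ) : Bool :=
  decide (p / 3 = q / 3) || (decide ((lit φ p).2 = (lit φ q).2) &&
    !decide ((lit φ p).1 = (lit φ q).1))

/-- adjacency of labels -/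
def ad (φ : Fm) (a b : ℕ × ℕ) : Bool :=
  !decide (a.1 = b.1) && (decide (a.1 = 3 * φ.length + 1) || (decide (b.1 = 3 * φ.length + 1) ||
    ((decide (a.1 < 3 * φ.length) && decide (b.1 < 3 * φ.length)) && bad φ a.1 b.1)))

/-- labels of the vertices -/
def vs (φ : Fm) : List (ℕ × ℕ) :=
  (3 * φ.length + 1, 0) :: (List.range (3 * φ.length + 1)) ×ˢ (List.range (3 * φ.length + 2))

theorem bad_symm (φ : Fm) (p q : ℕ) : bad φ p q = bad φ q p := by
  unfold bad
  simp only [eq_comm]

theorem ad_symm (φ : Fm) (a b : ℕ × ℕ) : ad φ a b = ad φ b a := by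
  unfold ad
  rw [bad_symm φ a.1 b.1, show decide (a.1 = b.1) = decide (b.1 = a.1) by simp only [eq_comm]]
  cases decide (b.1 = a.1) <;> cases decide (a.1 = 3 * φ.length + 1) <;>
    cases decide (b.1 = 3 * φ.length + 1) <;> cases decide (a.1 < 3 * φ.length) <;>
    cases decide (b.1 < 3 * φ.length) <;> rfl

theorem ad_irrefl (φ : Fm) (a : ℕ × ℕ) : ad φ a a = false := by
  unfold ad
  simp

/-- the graph -/
def gr (φ : Fm) : SimpleGraph (Fin (vs φ).length) := listGraph (vs φ) (ad φ) (ad_symm φ)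
  (ad_irrefl φ)

/-- the threshold -/
def K (φ : Fm) : ℕ := (3 * φ.length + 2) * (φ.length + 1)

/-- the label of a vertex -/
def lb (φ : Fm) (i : Fin (vs φ).length) : ℕ × ℕ := (vs φ)[i]

theorem adj_iff (φ : Fm) (i j : Fin (vs φ).length) :
    (gr φ).Adj i j ↔ ad φ (lb φ i) (lb φ j) = true := Iff.rfl

theorem mem_vs {φ : Fm} {a : ℕ × ℕ} : a ∈ vs φ ↔ a = (3 * φ.length + 1, 0) ∨
    (a.1 < 3 * φ.length + 1 ∧ a.2 < 3 * φ.length + 2) := by
  unfold vs
  obtain ⟨p, i⟩ := a
  rw [List.mem_cons, List.mem_product, List.mem_range, List.mem_range]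

theorem nodup_vs (φ : Fm) : (vs φ).Nodup := by
  unfold vs
  rw [List.nodup_cons]
  refine ⟨?_, List.nodup_range.product List.nodup_range⟩
  rw [List.mem_product, List.mem_range]
  simp

theorem lb_inj {φ : Fm} {i j : Fin (vs φ).length} (h : lb φ i = lb φ j) : i = j :=
  Fin.ext ((List.Nodup.getElem_inj_iff (nodup_vs φ)).1 h)

theorem exists_lb {φ : Fm} {a : ℕ × ℕ} (h : a ∈ vs φ) : ∃ i, lb φ i = a := by
  obtain ⟨i, hi, h⟩ := List.getElem_of_mem h
  exact ⟨⟨i, hi⟩, h⟩

theorem lb_mem (φ : Fm) (i : Fin (vs φ).length) : lb φ i ∈ vs φ := List.getElem_mem _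

/-- the universal vertex -/
def un (φ : Fm) : Fin (vs φ).length := ⟨0, by unfold vs; simp⟩

theorem lb_un (φ : Fm) : lb φ (un φ) = (3 * φ.length + 1, 0) := rfl

theorem lb_lt {φ : Fm} {v : Fin (vs φ).length} (h : v ≠ un φ) :
    (lb φ v).1 < 3 * φ.length + 1 ∧ (lb φ v).2 < 3 * φ.length + 2 := by
  rcases mem_vs.1 (lb_mem φ v) with h1 | h1
  · rw [← lb_un φ] at h1
    exact absurd (lb_inj h1) h
  · exact h1

theorem univ_adj (φ : Fm) : ∀ v, v ≠ un φ → (gr φ).Adj (un φ) v := by
  intro v hv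
  rw [adj_iff, lb_un]
  have := (lb_lt hv).1
  unfold ad
  simp only [decide_true, Bool.true_or, Bool.and_true, Bool.not_eq_true', decide_eq_false_iff_not]
  omega

theorem ad_iff {φ : Fm} {a b : ℕ × ℕ} (ha : a.1 < 3 * φ.length + 1) (hb : b.1 < 3 * φ.length + 1) :
    ad φ a b = true ↔ a.1 ≠ b.1 ∧ a.1 < 3 * φ.length ∧ b.1 < 3 * φ.length ∧ (a.1 / 3 = b.1 / 3 ∨
      ((lit φ a.1).2 = (lit φ b.1).2 ∧ (lit φ a.1).1 ≠ (lit φ b.1).1)) := by
  have h1 : decide (a.1 = 3 * φ.length + 1) = false := by simp; omega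
  have h2 : decide (b.1 = 3 * φ.length + 1) = false := by simp; omega
  unfold ad bad
  rw [h1, h2]
  simp only [Bool.false_or, Bool.and_eq_true, Bool.or_eq_true, Bool.not_eq_true',
    decide_eq_false_iff_not, decide_eq_true_eq, and_assoc]

theorem card_vs (φ : Fm) : 2 ≤ (vs φ).length := by
  unfold vs
  rw [List.length_cons, List.length_product, List.length_range, List.length_range]
  have : 1 * 1 ≤ (3 * φ.length + 1) * (3 * φ.length + 2) := Nat.mul_le_mul (by omega) (by omega)
  omega

/-- the literals of a clause -/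
theorem lit_cases (φ : Fm) {p : ℕ} (hp : p / 3 < φ.length) : ∃ c ∈ φ, c = cla φ (p / 3) ∧
    (lit φ p = c.1 ∨ lit φ p = c.2.1 ∨ lit φ p = c.2.2) := by
  refine ⟨cla φ (p / 3), ?_, rfl, ?_⟩
  · unfold cla
    rw [List.getD_eq_getElem _ _ hp]
    exact List.getElem_mem _
  · unfold lit
    split_ifs
    · exact Or.inl rfl
    · exact Or.inr (Or.inl rfl)
    · exact Or.inr (Or.inr rfl)

/-- extension to a maximal independent set -/
theorem exists_maximal {V : Type} [Fintype V] (G : SimpleGraph V) (S : Finset V)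
    (hS : ∀ a ∈ S, ∀ b ∈ S, ¬ G.Adj a b) : ∃ D : Finset V, S ⊆ D ∧
      (∀ a ∈ D, ∀ b ∈ D, ¬ G.Adj a b) ∧ ∀ a, a ∉ D → ∃ b ∈ D, G.Adj a b := by
  classical
  obtain ⟨D, hD, hmax⟩ := Finset.exists_max_image
    (Finset.univ.filter fun D : Finset V => S ⊆ D ∧ ∀ a ∈ D, ∀ b ∈ D, ¬ G.Adj a b)
    (fun D => D.card) ⟨S, by simpa using hS⟩
  rw [Finset.mem_filter] at hD
  refine ⟨D, hD.2.1, hD.2.2, ?_⟩
  intro a ha
  by_contra hcon
  push Not at hcon
  have h1 := hmax (insert a D) (by
    rw [Finset.mem_filter]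
    refine ⟨Finset.mem_univ _, hD.2.1.trans (Finset.subset_insert _ _), ?_⟩
    intro x hx y hy hxy
    rw [Finset.mem_insert] at hx hy
    rcases hx with rfl | hx <;> rcases hy with rfl | hy
    · exact G.loopless.irrefl _ hxy
    · exact hcon y hy hxy
    · exact hcon x hx hxy.symm
    · exact hD.2.2 x hx y hy hxy)
  rw [Finset.card_insert_of_notMem ha] at h1
  omega

/-- **Satisfiable formulas.** -/
theorem le_Gb_of_sat {φ : Fm} (h : SAT3 φ) : K φ ≤ Gb (gr φ) := by
  classical
  obtain ⟨τ, hτ⟩ := h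
  have hp : ∀ j, j < φ.length → ∃ p, p / 3 = j ∧ τ (lit φ p).2 = (lit φ p).1 := by
    intro j hj
    have h1 : cla φ j ∈ φ := by
      unfold cla
      rw [List.getD_eq_getElem _ _ hj]
      exact List.getElem_mem _
    rcases hτ _ h1 with h2 | h2 | h2
    · refine ⟨3 * j, by omega, ?_⟩
      have e1 : 3 * j % 3 = 0 := by omega
      have e2 : 3 * j / 3 = j := by omega
      unfold lit
      rw [if_pos e1, e2]
      exact h2
    · refine ⟨3 * j + 1, by omega, ?_⟩
      have e1 : (3 * j + 1) % 3 = 1 := by omega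
      have e2 : (3 * j + 1) / 3 = j := by omega
      unfold lit
      rw [e1, e2]
      exact h2
    · refine ⟨3 * j + 2, by omega, ?_⟩
      have e1 : (3 * j + 2) % 3 = 2 := by omega
      have e2 : (3 * j + 2) / 3 = j := by omega
      unfold lit
      rw [e1, e2]
      exact h2
  choose! p hp1 hp2 using hp
  set N := φ.length with hN
  have hP : ∀ x : Fin (N + 1) × Fin (3 * N + 2), ∃ v,
      lb φ v = ((if x.1.val < N then p x.1.val else 3 * N), x.2.val) := by
    intro x
    refine exists_lb (mem_vs.2 (Or.inr ⟨?_, ?_⟩))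
    · simp only
      split_ifs with h
      · have := hp1 _ h
        omega
      · omega
    · exact x.2.isLt
  choose g hg using hP
  have hinj : Function.Injective g := by
    intro x y hxy
    have h1 := hg x
    rw [hxy, hg y, Prod.mk.injEq] at h1
    obtain ⟨h2, h3⟩ := h1
    have hx := x.1.isLt
    have hy := y.1.isLt
    refine Prod.ext (Fin.ext ?_) (Fin.ext h3.symm)
    split_ifs at h2 with h4 h5 h5
    · have e1 := hp1 _ h4
      have e2 := hp1 _ h5
      rw [h2] at e1
      omega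
    · have e1 := hp1 _ h4
      omega
    · have e1 := hp1 _ h5
      omega
    · omega
  obtain ⟨D, hD1, hD2, hD3⟩ := exists_maximal (gr φ) (Finset.univ.image g) (by
    intro a ha b hb hab
    rw [Finset.mem_image] at ha hb
    obtain ⟨x, _, rfl⟩ := ha
    obtain ⟨y, _, rfl⟩ := hb
    rw [adj_iff, hg x, hg y] at hab
    have hx := x.1.isLt
    have hy := y.1.isLt
    have hbd : ∀ z : Fin (N + 1) × Fin (3 * N + 2),
        (if z.1.val < N then p z.1.val else 3 * N) < 3 * φ.length + 1 := by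
      intro z
      split_ifs with h
      · have := hp1 _ h
        omega
      · omega
    rw [ad_iff (hbd x) (hbd y)] at hab
    simp only at hab
    obtain ⟨h1, h2, h3, h4⟩ := hab
    have hxN : x.1.val < N := by
      by_contra hcon
      rw [if_neg hcon] at h2
      omega
    have hyN : y.1.val < N := by
      by_contra hcon
      rw [if_neg hcon] at h3
      omega
    rw [if_pos hxN, if_pos hyN] at h1 h4
    rcases h4 with h4 | ⟨h4, h5⟩
    · rw [hp1 _ hxN, hp1 _ hyN] at h4
      rw [h4] at h1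
      exact h1 rfl
    · refine h5 ?_
      rw [← hp2 _ hxN, ← hp2 _ hyN, h4])
  have : Nontrivial (Fin (vs φ).length) := by
    have := card_vs φ
    exact Fin.nontrivial_iff_two_le.2 this
  obtain ⟨f, hf, hc⟩ := minimalDominating_indicator (connected_of_univ (univ_adj φ)) hD2 hD3
  refine le_trans ?_ (le_Gb hf)
  rw [hc]
  refine le_trans ?_ (Finset.card_le_card hD1)
  rw [Finset.card_image_of_injective _ hinj, Finset.card_univ, Fintype.card_prod, Fintype.card_fin,
    Fintype.card_fin]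
  unfold K
  rw [← hN, Nat.mul_comm]

/-- **Graphs with a large irredundant broadcast.** -/
theorem sat_of_le_IRb {φ : Fm} (h : K φ ≤ IRb (gr φ)) : SAT3 φ := by
  classical
  by_cases hN0 : φ.length = 0
  · have : φ = [] := List.eq_nil_of_length_eq_zero hN0
    rw [this]
    exact ⟨fun _ => true, by simp⟩
  have hK : 2 < K φ := by
    unfold K
    have : 5 * 2 ≤ (3 * φ.length + 2) * (φ.length + 1) := Nat.mul_le_mul (by omega) (by omega)
    omega
  obtain ⟨f, hf, hc⟩ := exists_of_le_IRb (by omega) h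
  obtain ⟨S, hS1, hS2, hS3⟩ := irredundant_bound (univ_adj φ) hf (by omega)
    (fun v => (lb φ v).1) (3 * φ.length + 1) (fun v hv => (lb_lt hv).1) (by
      intro v w hv hw hvw y hy
      rw [adj_iff] at hy ⊢
      unfold ad at hy ⊢
      rw [← hvw]
      exact hy)
  set N := φ.length with hN
  have hcard : (3 * N + 2) * N + 1 ≤ S.card := by
    have h1 : K φ = (3 * N + 2) * N + (3 * N + 2) := by
      unfold K
      rw [← hN]
      ring
    omega
  have hSl : ∀ v ∈ S, (lb φ v).1 < 3 * N + 1 ∧ (lb φ v).2 < 3 * N + 2 := by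
    intro v hv
    refine lb_lt ?_
    rintro rfl
    exact hS1 hv
  have hadj : ∀ v ∈ S, ∀ w ∈ S, (lb φ v).1 ≠ (lb φ w).1 → (lb φ v).1 < 3 * N →
      (lb φ w).1 < 3 * N → ¬ ((lb φ v).1 / 3 = (lb φ w).1 / 3 ∨
      ((lit φ (lb φ v).1).2 = (lit φ (lb φ w).1).2 ∧
        (lit φ (lb φ v).1).1 ≠ (lit φ (lb φ w).1).1)) := by
    intro v hv w hw h1 h2 h3 h4
    refine hS2 v hv w hw ?_
    rw [adj_iff, ad_iff (hSl v hv).1 (hSl w hw).1]
    exact ⟨h1, h2, h3, h4⟩
  have hhit : ∀ j < N, ∃ v ∈ S, (lb φ v).1 < 3 * N ∧ (lb φ v).1 / 3 = j := by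
    intro j hj
    by_contra hcon
    push Not at hcon
    have hinj : Set.InjOn (fun v => ((lb φ v).1 / 3, (lb φ v).2)) (S : Set _) := by
      intro v hv w hw hvw
      simp only [Prod.mk.injEq] at hvw
      rw [Finset.mem_coe] at hv hw
      by_cases he : (lb φ v).1 = (lb φ w).1
      · exact lb_inj (Prod.ext he hvw.2)
      · exfalso
        have h1 := (hSl v hv).1
        have h2 := (hSl w hw).1
        refine hadj v hv w hw he ?_ ?_ (Or.inl hvw.1)
        · omega
        · omega
    have himg : S.image (fun v => ((lb φ v).1 / 3, (lb φ v).2)) ⊆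
        ((Finset.range (N + 1)).erase j) ×ˢ Finset.range (3 * N + 2) := by
      intro x hx
      rw [Finset.mem_image] at hx
      obtain ⟨v, hv, rfl⟩ := hx
      have h1 := hSl v hv
      rw [Finset.mem_product, Finset.mem_erase, Finset.mem_range, Finset.mem_range]
      simp only
      refine ⟨⟨?_, by omega⟩, h1.2⟩
      intro h2
      refine hcon v hv ?_ h2
      omega
    have h1 := Finset.card_le_card himg
    rw [Finset.card_image_of_injOn hinj, Finset.card_product, Finset.card_erase_of_mem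
      (Finset.mem_range.2 (by omega)), Finset.card_range, Finset.card_range, Nat.add_sub_cancel,
      Nat.mul_comm] at h1
    omega
  refine ⟨fun x => decide (∃ v ∈ S, (lb φ v).1 < 3 * N ∧ lit φ (lb φ v).1 = (true, x)), ?_⟩
  intro c hc
  obtain ⟨j, hj, hjc⟩ := List.getElem_of_mem hc
  obtain ⟨v, hv, hv1, hv2⟩ := hhit j hj
  obtain ⟨c', _, hc', hl⟩ := lit_cases φ (p := (lb φ v).1) (by omega)
  have hcc : c' = c := by
    rw [hc', hv2]
    unfold cla
    rw [List.getD_eq_getElem _ _ hj]
    exact hjc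
  rw [hcc] at hl
  have key : decide (∃ w ∈ S, (lb φ w).1 < 3 * N ∧ lit φ (lb φ w).1 =
      (true, (lit φ (lb φ v).1).2)) = (lit φ (lb φ v).1).1 := by
    cases hs : (lit φ (lb φ v).1).1 with
    | true =>
      rw [decide_eq_true_eq]
      exact ⟨v, hv, hv1, Prod.ext hs rfl⟩
    | false =>
      rw [decide_eq_false_iff_not]
      rintro ⟨w, hw, hw1, hw2⟩
      refine hadj v hv w hw ?_ hv1 hw1 (Or.inr ⟨?_, ?_⟩)
      · intro he
        rw [he, hw2] at hs
        simp at hs
      · rw [hw2]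
      · rw [hs, hw2]
        simp
  rcases hl with hl | hl | hl
  · left
    rw [← hl]
    exact key
  · right; left
    rw [← hl]
    exact key
  · right; right
    rw [← hl]
    exact key

end Pool.Agent.X65.BC
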